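import Pool.Agent.Helper89.GP.Sign

set_option autoImplicit false

/-!
# Doubling modulo an odd number and an involution which commutes with it
-/

namespace Helper89.GP

/-- doubling modulo `n` on `1, ..., n - 1`, for odd `n` -/
def dbl (n i : ℕ) : ℕ := if 2 * i < n then 2 * i else 2 * i - n

theorem dbl_mem {n k i : ℕ} (hn : n + 1 = 8 * k) (h0 : 0 < i) (h1 : i < n) :
    0 < dbl n i ∧ dbl n i < n := by
  unfold dbl
  split_ifs <;> omega

/-- the permutation -/
noncomputable def dblP {n k : ℕ} (hn : n + 1 = 8 * k) : Equiv.Perm ↥(Finset.Ioo 0 n) :=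
  Equiv.ofBijective (fun i => ⟨dbl n i, Finset.mem_Ioo.2
    (dbl_mem hn (Finset.mem_Ioo.1 i.2).1 (Finset.mem_Ioo.1 i.2).2)⟩) (by
      refine Finite.injective_iff_bijective.1 ?_
      rintro ⟨i, hi⟩ ⟨j, hj⟩ h
      rw [Finset.mem_Ioo] at hi hj
      have h2 : dbl n i = dbl n j := by simpa using h
      apply Subtype.ext
      show i = j
      unfold dbl at h2
      split_ifs at h2 <;> omega)

theorem dblP_coe {n k : ℕ} (hn : n + 1 = 8 * k) (i : ↥(Finset.Ioo 0 n)) :
    ((dblP hn i : ↥(Finset.Ioo 0 n)) : ℕ) = dbl n i := rfl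

theorem sign_dblP {n k : ℕ} (hn : n + 1 = 8 * k) : Equiv.Perm.sign (dblP hn) = 1 := by
  have h := sign_flip (dblP hn) (fun i => ⟨n - i, by
    have := Finset.mem_Ioo.1 i.2
    rw [Finset.mem_Ioo]
    omega⟩) (by
      rintro ⟨i, hi⟩
      rw [Finset.mem_Ioo] at hi
      apply Subtype.ext
      show n - (n - i) = i
      omega) (by
      rintro ⟨i, hi⟩
      rw [Finset.mem_Ioo] at hi
      apply Subtype.ext
      show dbl n (n - i) = n - dbl n i
      unfold dbl
      split_ifs <;> omega) (fun i => 2 * (i : ℕ) < n) (by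
      rintro ⟨i, hi⟩
      rw [Finset.mem_Ioo] at hi
      show 2 * i < n ↔ ¬ (2 * (n - i) < n)
      omega)
  rw [h]
  have hc : (Finset.univ.filter (fun x : ↥(Finset.Ioo 0 n) => 2 * (x : ℕ) < n ∧
      ¬ 2 * ((dblP hn x : ↥(Finset.Ioo 0 n)) : ℕ) < n)).card = (Finset.Ico (2 * k) (4 * k)).card := by
    refine Finset.card_bij (fun x _ => (x : ℕ)) ?_ ?_ ?_
    · rintro ⟨i, hi⟩ hx
      rw [Finset.mem_filter, dblP_coe] at hx
      rw [Finset.mem_Ioo] at hi
      obtain ⟨-, h1, h2⟩ := hx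
      unfold dbl at h2
      simp only [] at h1 h2 ⊢
      rw [if_pos h1] at h2
      rw [Finset.mem_Ico]
      omega
    · intro x _ y _ hxy
      exact Subtype.ext hxy
    · intro i hi
      rw [Finset.mem_Ico] at hi
      refine ⟨⟨i, Finset.mem_Ioo.2 (by omega)⟩, ?_, rfl⟩
      rw [Finset.mem_filter, dblP_coe]
      refine ⟨Finset.mem_univ _, by show 2 * i < n; omega, ?_⟩
      show ¬ 2 * dbl n i < n
      unfold dbl
      split_ifs <;> omega
  rw [hc, Nat.card_Ico]
  have : 4 * k - 2 * k = 2 * k := by omega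
  rw [this, pow_mul]
  simp

/-- The number of `i` with `i < f i`, `i` odd and `f i` even is even. -/
theorem even_flip {n k : ℕ} (hn : n + 1 = 8 * k) (f : ℕ → ℕ)
    (hf1 : ∀ i, 0 < i → i < n → 0 < f i ∧ f i < n)
    (hf2 : ∀ i, 0 < i → i < n → f (f i) = i) (hf3 : ∀ i, 0 < i → i < n → f i ≠ i)
    (hf4 : ∀ i, 0 < i → i < n → f (dbl n i) = dbl n (f i)) :
    Even ((Finset.Ioo 0 n).filter (fun i => i < f i ∧ i % 2 = 1 ∧ f i % 2 = 0)).card := by
  have h := sign_flip (dblP hn) (fun i => ⟨f i, Finset.mem_Ioo.2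
    (hf1 i (Finset.mem_Ioo.1 i.2).1 (Finset.mem_Ioo.1 i.2).2)⟩) (by
      rintro ⟨i, hi⟩
      rw [Finset.mem_Ioo] at hi
      exact Subtype.ext (hf2 i hi.1 hi.2)) (by
      rintro ⟨i, hi⟩
      rw [Finset.mem_Ioo] at hi
      exact Subtype.ext (hf4 i hi.1 hi.2).symm) (fun i => f (i : ℕ) < i) (by
      rintro ⟨i, hi⟩
      rw [Finset.mem_Ioo] at hi
      show f i < i ↔ ¬ (f (f i) < f i)
      rw [hf2 i hi.1 hi.2]
      have := hf3 i hi.1 hi.2
      omega)
  rw [sign_dblP] at h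
  have hc : (Finset.univ.filter (fun x : ↥(Finset.Ioo 0 n) => f (x : ℕ) < x ∧
      ¬ f ((dblP hn x : ↥(Finset.Ioo 0 n)) : ℕ) < (dblP hn x : ↥(Finset.Ioo 0 n)))).card =
      ((Finset.Ioo 0 n).filter (fun i => i < f i ∧ i % 2 = 1 ∧ f i % 2 = 0)).card := by
    refine Finset.card_bij (fun x _ => ((dblP hn x : ↥(Finset.Ioo 0 n)) : ℕ)) ?_ ?_ ?_
    · rintro ⟨i, hi⟩ hx
      rw [Finset.mem_filter, dblP_coe] at hx
      rw [dblP_coe]
      rw [Finset.mem_Ioo] at hi
      obtain ⟨-, h1, h2⟩ := hx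
      simp only [] at h1 h2 ⊢
      have h3 := dbl_mem hn hi.1 hi.2
      have h4 := hf3 (dbl n i) h3.1 h3.2
      have h5 := hf1 i hi.1 hi.2
      rw [Finset.mem_filter, Finset.mem_Ioo]
      refine ⟨h3, by omega, ?_⟩
      rw [hf4 i hi.1 hi.2] at h2 h4 ⊢
      unfold dbl at h2 h4 ⊢
      split_ifs at h2 h4 ⊢ <;> omega
    · intro x _ y _ hxy
      exact (dblP hn).injective (Subtype.ext hxy)
    · intro j hj
      rw [Finset.mem_filter] at hj
      obtain ⟨x, hx⟩ := (dblP hn).surjective ⟨j, hj.1⟩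
      refine ⟨x, ?_, by rw [hx]⟩
      rw [Finset.mem_filter, hx]
      obtain ⟨i, hi⟩ := x
      have h1 : dbl n i = j := by
        have := congrArg Subtype.val hx
        exact this
      rw [Finset.mem_Ioo] at hi
      have h5 := hf1 i hi.1 hi.2
      have h6 := hf4 i hi.1 hi.2
      rw [h1] at h6
      refine ⟨Finset.mem_univ _, ?_, ?_⟩
      · show f i < i
        have h7 := hj.2
        rw [h6, ← h1] at h7
        unfold dbl at h7
        split_ifs at h7 <;> omega
      · show ¬ f j < j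
        omega
  rw [hc] at h
  by_contra hodd
  rw [Nat.not_even_iff_odd] at hodd
  rw [hodd.neg_one_pow] at h
  exact absurd h (by decide)

end Helper89.GP
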