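import Pool.Agent.Helper89.GP.Dbl
import Pool.Agent.GolPar.Defs

set_option autoImplicit false

/-!
# The parity populations of symmetric Golomb arrays modulo 4
-/

namespace Helper89.GP

section arith

variable {F : Type*} [Field F] [Fintype F]

theorem ne_zero' {β : F} (hβ : orderOf β = Fintype.card F - 1) : β ≠ 0 := by
  have hcard : 1 < Fintype.card F := Fintype.one_lt_card
  rintro rfl
  rw [orderOf_zero] at hβ
  omega

theorem exists_pow' [DecidableEq F] {β : F} (hβ : orderOf β = Fintype.card F - 1) {y : F}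
    (hy : y ≠ 0) : ∃ j, j < Fintype.card F - 1 ∧ β ^ j = y := by
  have hβ0 := ne_zero' hβ
  have h1 : orderOf (Units.mk0 β hβ0) = Nat.card Fˣ := by
    rw [Nat.card_eq_fintype_card, Fintype.card_units, ← hβ, ← orderOf_units]
    rfl
  have h2 : Subgroup.zpowers (Units.mk0 β hβ0) = ⊤ :=
    Subgroup.eq_top_of_card_eq _ ((Nat.card_zpowers _).trans h1)
  have h3 : Units.mk0 y hy ∈ Subgroup.zpowers (Units.mk0 β hβ0) := by
    rw [h2]
    exact Subgroup.mem_top _
  rw [mem_zpowers_iff_mem_range_orderOf, Finset.mem_image] at h3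
  obtain ⟨j, hj, h4⟩ := h3
  refine ⟨j, ?_, ?_⟩
  · rw [Finset.mem_range, h1, Nat.card_eq_fintype_card, Fintype.card_units] at hj
    exact hj
  · have := congrArg Units.val h4
    simpa using this

theorem pow_inj' {β : F} (hβ : orderOf β = Fintype.card F - 1) {i j : ℕ}
    (hi : i < Fintype.card F - 1) (hj : j < Fintype.card F - 1) (h : β ^ i = β ^ j) : i = j :=
  pow_injOn_Iio_orderOf (by rw [Set.mem_Iio, hβ]; exact hi) (by rw [Set.mem_Iio, hβ]; exact hj) h

end arith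

variable {F : Type*} [Field F] [Fintype F] [DecidableEq F]

open Classical in
/-- the partner of `i` -/
noncomputable def ptn (α : F) (i : ℕ) : ℕ :=
  if h : ∃ j, 0 < j ∧ j < Fintype.card F - 1 ∧ α ^ i + α ^ j = 1 then h.choose else 0

theorem ptn_spec {α : F} (hα : orderOf α = Fintype.card F - 1) {i : ℕ} (h0 : 0 < i)
    (h1 : i < Fintype.card F - 1) :
    0 < ptn α i ∧ ptn α i < Fintype.card F - 1 ∧ α ^ i + α ^ ptn α i = 1 := by
  have h : ∃ j, 0 < j ∧ j < Fintype.card F - 1 ∧ α ^ i + α ^ j = 1 := by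
    have h3 : α ^ i ≠ 1 := by
      intro h
      have := pow_inj' hα h1 (by omega : 0 < Fintype.card F - 1) (by rw [h, pow_zero])
      omega
    obtain ⟨j, hj, h4⟩ := exists_pow' hα (y := 1 - α ^ i) (sub_ne_zero.2 h3.symm)
    refine ⟨j, ?_, hj, by rw [h4]; ring⟩
    by_contra h5
    have : j = 0 := by omega
    subst this
    rw [pow_zero] at h4
    have h6 : α ^ i = 0 := by
      have : 1 - (1 - α ^ i) = 1 - 1 := by rw [← h4]
      simpa using this
    exact pow_ne_zero i (ne_zero' hα) h6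
  have h2 := h.choose_spec
  rw [ptn, dif_pos h]
  exact h2

theorem ptn_uniq {α : F} (hα : orderOf α = Fintype.card F - 1) {i j : ℕ} (h0 : 0 < i)
    (h1 : i < Fintype.card F - 1) (h3 : j < Fintype.card F - 1)
    (h : α ^ i + α ^ j = 1) : ptn α i = j := by
  obtain ⟨-, h5, h6⟩ := ptn_spec hα h0 h1
  exact pow_inj' hα h5 h3 (add_left_cancel (h6.trans h.symm))

/-- the number of `i < ptn i` of given parities -/
noncomputable def cnt (α : F) (r s : ℕ) : ℕ :=
  ((Finset.Ioo 0 (Fintype.card F - 1)).filter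
    (fun i => i < ptn α i ∧ i % 2 = r ∧ ptn α i % 2 = s)).card

theorem pop_card {α : F} (hα : orderOf α = Fintype.card F - 1) (r s : ℕ) :
    GolPar.pop α α r s = ((Finset.Ioo 0 (Fintype.card F - 1)).filter
      (fun i => i % 2 = r ∧ ptn α i % 2 = s)).card := by
  have hcard : 1 < Fintype.card F := Fintype.one_lt_card
  refine Finset.card_bij (fun x _ => x.1) ?_ ?_ ?_
  · rintro ⟨i, j⟩ hx
    rw [GolPar.dots, Finset.mem_filter, Finset.mem_product, Finset.mem_Icc, Finset.mem_Icc] at hx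
    obtain ⟨⟨⟨h1, h2⟩, h3, h4⟩, h5, h6, h7⟩ := hx
    simp only [] at h1 h2 h3 h4 h5 h6 h7 ⊢
    rw [Finset.mem_filter, Finset.mem_Ioo, ptn_uniq hα (by omega) (by omega) (by omega) h5]
    exact ⟨⟨by omega, by omega⟩, h6, h7⟩
  · rintro ⟨i, j⟩ hx ⟨i', j'⟩ hx' h
    rw [GolPar.dots, Finset.mem_filter, Finset.mem_product, Finset.mem_Icc, Finset.mem_Icc] at hx hx'
    obtain ⟨⟨⟨h1, h2⟩, h3, h4⟩, h5, h6, h7⟩ := hx
    obtain ⟨⟨⟨h1', h2'⟩, h3', h4'⟩, h5', h6', h7'⟩ := hx'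
    simp only [] at h1 h2 h3 h4 h5 h6 h7 h1' h2' h3' h4' h5' h6' h7' h ⊢
    subst h
    have := ptn_uniq hα (by omega) (by omega) (by omega) h5
    have h' := ptn_uniq hα (by omega) (by omega) (by omega) h5'
    rw [← this, ← h']
  · intro i hi
    rw [Finset.mem_filter, Finset.mem_Ioo] at hi
    have h1 := ptn_spec hα hi.1.1 hi.1.2
    refine ⟨(i, ptn α i), ?_, rfl⟩
    rw [GolPar.dots, Finset.mem_filter, Finset.mem_product, Finset.mem_Icc, Finset.mem_Icc]
    refine ⟨⟨⟨?_, ?_⟩, ?_, ?_⟩, h1.2.2, hi.2.1, hi.2.2⟩ <;> simp only [] <;> omega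

variable [CharP F 2]

theorem ptn_ptn {α : F} (hα : orderOf α = Fintype.card F - 1) {i : ℕ} (h0 : 0 < i)
    (h1 : i < Fintype.card F - 1) : ptn α (ptn α i) = i := by
  obtain ⟨h2, h3, h4⟩ := ptn_spec hα h0 h1
  exact ptn_uniq hα h2 h3 h1 (by rw [add_comm]; exact h4)

theorem ptn_ne {α : F} (hα : orderOf α = Fintype.card F - 1) {i : ℕ} (h0 : 0 < i)
    (h1 : i < Fintype.card F - 1) : ptn α i ≠ i := by
  intro h
  obtain ⟨h2, h3, h4⟩ := ptn_spec hα h0 h1
  rw [h, CharTwo.add_self_eq_zero] at h4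
  exact zero_ne_one h4

theorem pow_dbl {α : F} (hα : orderOf α = Fintype.card F - 1) {i : ℕ} :
    α ^ dbl (Fintype.card F - 1) i = (α ^ i) ^ 2 := by
  have h : α ^ (Fintype.card F - 1) = 1 := by rw [← hα]; exact pow_orderOf_eq_one α
  unfold dbl
  split_ifs with h1
  · rw [← pow_mul, mul_comm]
  · have h2 : 2 * i = (2 * i - (Fintype.card F - 1)) + (Fintype.card F - 1) := by omega
    rw [← pow_mul, mul_comm i 2]
    conv_rhs => rw [h2, pow_add, h, mul_one]

theorem ptn_dbl {α : F} {k : ℕ} (hk : Fintype.card F - 1 + 1 = 8 * k)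
    (hα : orderOf α = Fintype.card F - 1) {i : ℕ} (h0 : 0 < i)
    (h1 : i < Fintype.card F - 1) :
    ptn α (dbl (Fintype.card F - 1) i) = dbl (Fintype.card F - 1) (ptn α i) := by
  obtain ⟨h2, h3, h4⟩ := ptn_spec hα h0 h1
  have h5 := dbl_mem hk h0 h1
  have h6 := dbl_mem hk h2 h3
  refine ptn_uniq hα h5.1 h5.2 h6.2 ?_
  rw [pow_dbl hα, pow_dbl hα, ← CharTwo.add_sq, h4, one_pow]

theorem ptn_rot {α : F} (hα : orderOf α = Fintype.card F - 1) {i : ℕ} (h0 : 0 < i)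
    (h1 : i < Fintype.card F - 1) (hlt : i < ptn α i) :
    ptn α (ptn α i - i) = Fintype.card F - 1 - i := by
  obtain ⟨h2, h3, h4⟩ := ptn_spec hα h0 h1
  have hn : α ^ (Fintype.card F - 1) = 1 := by rw [← hα]; exact pow_orderOf_eq_one α
  refine ptn_uniq hα (by omega) (by omega) (by omega) ?_
  have h5 : α ^ i ≠ 0 := pow_ne_zero _ (ne_zero' hα)
  apply mul_right_cancel₀ h5
  rw [add_mul, ← pow_add, ← pow_add, Nat.sub_add_cancel hlt.le, Nat.sub_add_cancel h1.le, hn,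
    one_mul]
  have h6 : α ^ ptn α i + (α ^ i + α ^ ptn α i) = α ^ i := by
    rw [add_comm (α ^ i), ← add_assoc, CharTwo.add_self_eq_zero, zero_add]
  rw [h4] at h6
  exact h6

theorem cnt_le {α : F} {k : ℕ} (hk : Fintype.card F - 1 + 1 = 8 * k)
    (hα : orderOf α = Fintype.card F - 1) {r s : ℕ} (hr : r < 2)
    (hs : s < 2) : cnt α r s ≤ cnt α ((r + s) % 2) ((r + 1) % 2) := by
  refine Finset.card_le_card_of_injOn (fun i => ptn α i - i) ?_ ?_
  · intro i hi
    rw [Finset.mem_coe, Finset.mem_filter, Finset.mem_Ioo] at hi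
    obtain ⟨⟨h0, h1⟩, h2, h3, h4⟩ := hi
    obtain ⟨h5, h6, h7⟩ := ptn_spec hα h0 h1
    have h8 := ptn_rot hα h0 h1 h2
    rw [Finset.mem_coe, Finset.mem_filter, Finset.mem_Ioo]
    simp only []
    rw [h8]
    omega
  · intro i hi j hj hij
    rw [Finset.mem_coe, Finset.mem_filter, Finset.mem_Ioo] at hi hj
    have h8 := ptn_rot hα hi.1.1 hi.1.2 hi.2.1
    have h9 := ptn_rot hα hj.1.1 hj.1.2 hj.2.1
    have h10 : ptn α i - i = ptn α j - j := hij
    rw [h10, h9] at h8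
    omega

theorem pop_eq_cnt {α : F} (hα : orderOf α = Fintype.card F - 1) (r s : ℕ) :
    GolPar.pop α α r s = cnt α r s + cnt α s r := by
  rw [pop_card hα]
  have h1 : cnt α s r = ((Finset.Ioo 0 (Fintype.card F - 1)).filter
      (fun i => ptn α i < i ∧ i % 2 = r ∧ ptn α i % 2 = s)).card := by
    refine Finset.card_nbij' (ptn α) (ptn α) ?_ ?_ ?_ ?_
    · intro i hi
      rw [Finset.mem_coe, Finset.mem_filter, Finset.mem_Ioo] at hi ⊢
      obtain ⟨h5, h6, h7⟩ := ptn_spec hα hi.1.1 hi.1.2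
      rw [ptn_ptn hα hi.1.1 hi.1.2]
      exact ⟨⟨h5, h6⟩, hi.2.1, hi.2.2.2, hi.2.2.1⟩
    · intro i hi
      rw [Finset.mem_coe, Finset.mem_filter, Finset.mem_Ioo] at hi ⊢
      obtain ⟨h5, h6, h7⟩ := ptn_spec hα hi.1.1 hi.1.2
      rw [ptn_ptn hα hi.1.1 hi.1.2]
      exact ⟨⟨h5, h6⟩, hi.2.1, hi.2.2.2, hi.2.2.1⟩
    · intro i hi
      rw [Finset.mem_coe, Finset.mem_filter, Finset.mem_Ioo] at hi
      exact ptn_ptn hα hi.1.1 hi.1.2
    · intro i hi
      rw [Finset.mem_coe, Finset.mem_filter, Finset.mem_Ioo] at hi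
      exact ptn_ptn hα hi.1.1 hi.1.2
  rw [h1, cnt, ← Finset.card_union_of_disjoint]
  · congr 1
    ext i
    rw [Finset.mem_union, Finset.mem_filter, Finset.mem_filter, Finset.mem_filter, Finset.mem_Ioo]
    constructor
    · rintro ⟨⟨h2, h3⟩, h4, h5⟩
      have := ptn_ne hα h2 h3
      rcases lt_or_gt_of_ne this with h | h
      · exact Or.inr ⟨⟨h2, h3⟩, h, h4, h5⟩
      · exact Or.inl ⟨⟨h2, h3⟩, h, h4, h5⟩
    · rintro (⟨h2, -, h3⟩ | ⟨h2, -, h3⟩)
      · exact ⟨h2, h3⟩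
      · exact ⟨h2, h3⟩
  · rw [Finset.disjoint_left]
    intro i h2 h3
    rw [Finset.mem_filter] at h2 h3
    omega

theorem total {α : F} (hα : orderOf α = Fintype.card F - 1) :
    GolPar.pop α α 0 0 + GolPar.pop α α 0 1 + GolPar.pop α α 1 0 + GolPar.pop α α 1 1 =
      Fintype.card F - 1 - 1 := by
  rw [pop_card hα, pop_card hα, pop_card hα, pop_card hα]
  simp only [Finset.card_filter]
  rw [← Finset.sum_add_distrib, ← Finset.sum_add_distrib, ← Finset.sum_add_distrib]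
  have h : (Finset.Ioo 0 (Fintype.card F - 1)).card = Fintype.card F - 1 - 1 := by
    rw [Nat.card_Ioo]
    omega
  rw [← h, Finset.card_eq_sum_ones]
  refine Finset.sum_congr rfl fun i _ => ?_
  split_ifs <;> omega

/-- The parity populations modulo 4. -/
theorem main {α : F} (hq : 8 ≤ Fintype.card F) (hα : orderOf α = Fintype.card F - 1) :
    GolPar.pop α α 0 0 % 4 = 2 ∧ GolPar.pop α α 1 1 % 4 = 2 ∧
      GolPar.pop α α 0 1 % 4 = 1 ∧ GolPar.pop α α 1 0 % 4 = 1 := by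
  obtain ⟨k, hk⟩ : ∃ k, Fintype.card F = 8 * k := by
    obtain ⟨m, hm, h⟩ := FiniteField.card F 2
    rw [h] at hq ⊢
    have h3 : 3 ≤ (m : ℕ) := by
      by_contra h4
      have : (m : ℕ) ≤ 2 := by omega
      have : 2 ^ (m : ℕ) ≤ 2 ^ 2 := Nat.pow_le_pow_right (by norm_num) this
      omega
    exact ⟨2 ^ ((m : ℕ) - 3), by
      rw [show (8 : ℕ) = 2 ^ 3 by norm_num, ← pow_add]
      congr 1
      omega⟩
  have hn : Fintype.card F - 1 + 1 = 8 * k := by omega
  have hev := even_flip hn (ptn α) (fun i h0 h1 => ⟨(ptn_spec hα h0 h1).1, (ptn_spec hα h0 h1).2.1⟩)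
    (fun i h0 h1 => ptn_ptn hα h0 h1) (fun i h0 h1 => ptn_ne hα h0 h1)
    (fun i h0 h1 => ptn_dbl hn hα h0 h1)
  obtain ⟨c, hc⟩ := hev
  have hc' : cnt α 1 0 = c + c := hc
  have h1 := cnt_le hn hα (r := 0) (s := 0) (by norm_num) (by norm_num)
  have h2 := cnt_le hn hα (r := 0) (s := 1) (by norm_num) (by norm_num)
  have h3 := cnt_le hn hα (r := 1) (s := 1) (by norm_num) (by norm_num)
  norm_num at h1 h2 h3
  have h4 := total hα
  rw [pop_eq_cnt hα, pop_eq_cnt hα, pop_eq_cnt hα, pop_eq_cnt hα] at h4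
  rw [pop_eq_cnt hα, pop_eq_cnt hα, pop_eq_cnt hα, pop_eq_cnt hα]
  omega

end Helper89.GP
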