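import Mathlib

set_option autoImplicit false

/-!
# The sign of a permutation which commutes with an involution without fixed points
-/

namespace Helper89.GP

variable {E : Type*} [Fintype E] [DecidableEq E]

/-- `E` is the product of a section of the involution `τ` and `Bool`. -/
def blk (τ : E → E) (hτ : ∀ x, τ (τ x) = x) (P : E → Prop) [DecidablePred P]
    (hP : ∀ x, P x ↔ ¬ P (τ x)) : {x // P x} × Bool ≃ E where
  toFun y := if y.2 then τ y.1 else y.1
  invFun x := if h : P x then (⟨x, h⟩, false) else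
    (⟨τ x, by by_contra h2; exact h ((hP x).2 h2)⟩, true)
  left_inv := by
    rintro ⟨⟨y, hy⟩, b⟩
    cases b
    · simp [hy]
    · have h : ¬ P (τ y) := (hP y).1 hy
      simp [h, hτ]
  right_inv := by
    intro x
    by_cases h : P x
    · simp [h]
    · simp [h, hτ]

theorem blk_symm_snd (τ : E → E) (hτ : ∀ x, τ (τ x) = x) (P : E → Prop) [DecidablePred P]
    (hP : ∀ x, P x ↔ ¬ P (τ x)) (x : E) : ((blk τ hτ P hP).symm x).2 = true ↔ ¬ P x := by
  by_cases h : P x
  · simp [blk, h]
  · simp [blk, h]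

theorem blk_symm_tau (τ : E → E) (hτ : ∀ x, τ (τ x) = x) (P : E → Prop) [DecidablePred P]
    (hP : ∀ x, P x ↔ ¬ P (τ x)) (x : E) : (blk τ hτ P hP).symm (τ x) =
      (((blk τ hτ P hP).symm x).1, ! ((blk τ hτ P hP).symm x).2) := by
  by_cases h : P x
  · have h2 : ¬ P (τ x) := (hP x).1 h
    simp [blk, h, h2, hτ]
  · have h2 : P (τ x) := by by_contra h2; exact h ((hP x).2 h2)
    simp [blk, h, h2]

theorem sign_flip (σ : Equiv.Perm E) (τ : E → E) (hτ : ∀ x, τ (τ x) = x)
    (hc : ∀ x, σ (τ x) = τ (σ x)) (P : E → Prop) [DecidablePred P] (hP : ∀ x, P x ↔ ¬ P (τ x)) :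
    Equiv.Perm.sign σ = (-1) ^ (Finset.univ.filter (fun x => P x ∧ ¬ P (σ x))).card := by
  classical
  set e := blk τ hτ P hP with he
  set σ' : Equiv.Perm ({x // P x} × Bool) := (e.trans σ).trans e.symm with hσ'
  have h1 : Equiv.Perm.sign σ' = Equiv.Perm.sign σ := by
    rw [hσ']
    exact Equiv.Perm.sign_trans_trans_symm σ e
  set fl : {x // P x} → Bool := fun y => (e.symm (σ y)).2 with hfl
  set π : {x // P x} → {x // P x} := fun y => (e.symm (σ y)).1 with hπ
  have hap : ∀ y b, σ' (y, b) = (π y, xor b (fl y)) := by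
    intro y b
    cases b
    · simp [hσ', hπ, hfl, he, blk]
    · have : σ' (y, true) = e.symm (σ (τ y)) := by simp [hσ', he, blk]
      rw [this, hc, he, blk_symm_tau]
      simp [hπ, hfl, he]
  have hπi : Function.Injective π := by
    intro y y' h
    have h2 : σ' (y, fl y) = σ' (y', fl y') := by
      rw [hap, hap, h]
      simp
    have := σ'.injective h2
    exact (Prod.ext_iff.1 this).1
  set π' : Equiv.Perm {x // P x} := Equiv.ofBijective π (Finite.injective_iff_bijective.1 hπi)
    with hπ'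
  have hdec : σ' = (Equiv.prodCongrLeft (fun _ : Bool => π')) *
      (Equiv.prodCongrRight (fun y : {x // P x} => if fl y then Equiv.swap false true else 1)) := by
    apply Equiv.ext
    rintro ⟨y, b⟩
    rw [hap]
    by_cases h : fl y
    · cases b <;> simp [h, hπ']
    · cases b <;> simp [h, hπ']
  rw [← h1, hdec, Equiv.Perm.sign_mul, Equiv.Perm.sign_prodCongrLeft,
    Equiv.Perm.sign_prodCongrRight]
  have h3 : (∏ _k : Bool, Equiv.Perm.sign π') = 1 := by
    simp
  rw [h3, one_mul]
  have h4 : ∀ y : {x // P x}, Equiv.Perm.sign (if fl y then Equiv.swap false true else 1) =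
      if fl y = true then -1 else 1 := by
    intro y
    split_ifs
    · exact Equiv.Perm.sign_swap (by decide)
    · simp
  rw [Finset.prod_congr rfl (fun y _ => h4 y), Finset.prod_ite, Finset.prod_const_one, mul_one,
    Finset.prod_const]
  congr 1
  refine Finset.card_bij (fun y _ => (y : E)) ?_ ?_ ?_
  · intro y hy
    rw [Finset.mem_filter] at hy ⊢
    exact ⟨Finset.mem_univ _, y.2, (blk_symm_snd τ hτ P hP _).1 hy.2⟩
  · intro y _ y' _ h
    exact Subtype.ext h
  · intro x hx
    rw [Finset.mem_filter] at hx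
    refine ⟨⟨x, hx.2.1⟩, ?_, rfl⟩
    rw [Finset.mem_filter]
    exact ⟨Finset.mem_univ _, (blk_symm_snd τ hτ P hP _).2 hx.2.2⟩

end Helper89.GP
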